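import Pool.Agent.H99.CE.Targets
import Pool.Agent.H61.CE.SHT

/-!
# CBT: the chains of low boxes only (MP_65efe8_pr)
-/

set_option autoImplicit false

open MeasureTheory ProbabilityTheory Filter Topology
open scoped ENNReal
open Pool.Agent.H95 Pool.Agent.H95.Cop Pool.Agent.H96.Cop Pool.Agent.H99.CE
open Pool.Agent.H61.CE (sumw sum_wq wq_nonneg)

namespace Pool.Agent.H75.CE

/-- the factor of the kernel beyond the big box -/
noncomputable def cf (η : ℝ) (M D : ℕ) : ℝ := if D ≤ M then 1 else η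

lemma cf_nonneg {η : ℝ} (h : 0 ≤ η) (M D : ℕ) : 0 ≤ cf η M D := by
  unfold cf
  split_ifs
  · exact zero_le_one
  · exact h

lemma cf_le_one {η : ℝ} (h : η ≤ 1) (M D : ℕ) : cf η M D ≤ 1 := by
  unfold cf
  split_ifs
  · exact le_rfl
  · exact h

/-- the contribution of the kernel to the coefficient of the starts -/
noncomputable def Sr (α P η : ℝ) (M p : ℕ) : ℝ :=
  α ^ 2 * P * ∑ i ∈ Finset.range (min M p), wq α (p - i) * cf η M (p - i)

/-- the coefficient of the starts as a real number -/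
noncomputable def Ar (α P η : ℝ) (M p : ℕ) : ℝ := (if p < M then (1 : ℝ) else 0) + Sr α P η M p

lemma Sr_nonneg {α P η : ℝ} (hP : 0 ≤ P) (hη : 0 ≤ η) (M p : ℕ) :
    0 ≤ Sr α P η M p :=
  mul_nonneg (by positivity)
    (Finset.sum_nonneg fun i _ => mul_nonneg (wq_nonneg _ _) (cf_nonneg hη _ _))

lemma Ar_nonneg {α P η : ℝ} (hP : 0 ≤ P) (hη : 0 ≤ η) (M p : ℕ) : 0 ≤ Ar α P η M p := by
  refine add_nonneg ?_ (Sr_nonneg hP hη M p)
  split_ifs <;> norm_num

lemma ab_eq {α t P η : ℝ} (ht : 0 < t) (hP : 0 ≤ P) (hη : 0 ≤ η) (M p : ℕ) :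
    ab (ENNReal.ofReal (α ^ 2 * P * t)) (Kd α t η M) M p = ENNReal.ofReal (Ar α P η M p) := by
  unfold ab
  have e1 : ∑ i ∈ Finset.range (min M p), Kd α t η M (p - i) =
      ENNReal.ofReal (∑ i ∈ Finset.range (min M p), wq α (p - i) / t * cf η M (p - i)) := by
    rw [ENNReal.ofReal_sum_of_nonneg]
    · rfl
    · intro i _
      exact mul_nonneg (div_nonneg (wq_nonneg _ _) ht.le) (cf_nonneg hη _ _)
  have e2 : (if p < M then (1 : ℝ≥0∞) else 0) =
      ENNReal.ofReal (if p < M then (1 : ℝ) else 0) := by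
    split_ifs <;> simp
  rw [e1, e2, ← ENNReal.ofReal_mul (by positivity), ← ENNReal.ofReal_add]
  · congr 1
    unfold Ar Sr
    congr 1
    rw [mul_assoc, Finset.mul_sum]
    congr 1
    refine Finset.sum_congr rfl fun i _ => ?_
    field_simp
  · split_ifs <;> norm_num
  · exact mul_nonneg (by positivity) (Finset.sum_nonneg fun i _ =>
      mul_nonneg (div_nonneg (wq_nonneg _ _) ht.le) (cf_nonneg hη _ _))

lemma Sr_le {α P η : ℝ} (hα : 0 < α) (hα2 : α ≤ 1 / 2) (hP : 0 ≤ P) (hη1 : η ≤ 1) (M p : ℕ) :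
    Sr α P η M p ≤ 2 * α * P := by
  have e1 : ∑ i ∈ Finset.range (min M p), wq α (p - i) * cf η M (p - i) ≤ 2 + 1 / α := by
    refine (Finset.sum_le_sum fun i _ => ?_).trans (sum_wq hα M p)
    exact mul_le_of_le_one_right (wq_nonneg _ _) (cf_le_one hη1 _ _)
  have e2 : Sr α P η M p ≤ α ^ 2 * P * (2 + 1 / α) := mul_le_mul_of_nonneg_left e1 (by positivity)
  refine e2.trans ?_
  have e3 : α ^ 2 * P * (2 + 1 / α) = α * P * (2 * α + 1) := by field_simp
  rw [e3]
  have e4 : 0 ≤ α * P := by positivity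
  nlinarith

lemma Sr_far {α P η : ℝ} (hα : 0 < α) (hP : 0 ≤ P) (hη0 : 0 ≤ η)
    (M : ℕ) (hM : 1 ≤ M) (j p : ℕ) (hp : (j + 2) * M ≤ p) :
    Sr α P η M p ≤ α ^ 2 * P * η * ((j : ℝ) + 1) ^ (-(1 + α)) := by
  have hM' : (1 : ℝ) ≤ M := by exact_mod_cast hM
  have hp2 : 2 * M ≤ p := le_trans (Nat.mul_le_mul_right _ (by omega)) hp
  have hjM : (0 : ℝ) < ((j : ℝ) + 1) * M := by positivity
  have e4 : ∀ i ∈ Finset.range (min M p), wq α (p - i) * cf η M (p - i) ≤
      η * (((j : ℝ) + 1) * M) ^ (-(1 + α)) := by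
    intro i hi
    have hi' : i < M := (Finset.mem_range.1 hi).trans_le (min_le_left _ _)
    have e5 : cf η M (p - i) = η := by
      unfold cf
      rw [if_neg (by omega)]
    rw [e5, mul_comm]
    refine mul_le_mul_of_nonneg_left ?_ hη0
    unfold wq
    have e6 : max (p - i - 1) 1 = p - i - 1 := by omega
    rw [e6]
    refine Real.rpow_le_rpow_of_nonpos hjM ?_ (by linarith)
    have e7 : (j + 1) * M ≤ p - i - 1 := by
      have e8 : (j + 2) * M = (j + 1) * M + M := by ring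
      omega
    exact_mod_cast e7
  have e5 : ∑ i ∈ Finset.range (min M p), wq α (p - i) * cf η M (p - i) ≤
      M * (η * (((j : ℝ) + 1) * M) ^ (-(1 + α))) := by
    refine (Finset.sum_le_sum e4).trans ?_
    rw [Finset.sum_const, Finset.card_range, nsmul_eq_mul]
    refine mul_le_mul_of_nonneg_right ?_ (by positivity)
    exact_mod_cast min_le_left _ _
  have e6 : (M : ℝ) * (((j : ℝ) + 1) * M) ^ (-(1 + α)) ≤ ((j : ℝ) + 1) ^ (-(1 + α)) := by
    rw [Real.mul_rpow (by positivity) (by positivity)]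
    have e7 : (M : ℝ) * (M : ℝ) ^ (-(1 + α)) ≤ 1 := by
      have h1 : (M : ℝ) ^ (-(1 + α)) ≤ (M : ℝ) ^ (-(1 : ℝ)) :=
        Real.rpow_le_rpow_of_exponent_le hM' (by linarith)
      rw [Real.rpow_neg_one] at h1
      calc (M : ℝ) * (M : ℝ) ^ (-(1 + α)) ≤ (M : ℝ) * (M : ℝ)⁻¹ :=
            mul_le_mul_of_nonneg_left h1 (by positivity)
        _ = 1 := mul_inv_cancel₀ (by positivity)
    calc (M : ℝ) * (((j : ℝ) + 1) ^ (-(1 + α)) * (M : ℝ) ^ (-(1 + α))) =
          ((j : ℝ) + 1) ^ (-(1 + α)) * ((M : ℝ) * (M : ℝ) ^ (-(1 + α))) := by ring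
      _ ≤ ((j : ℝ) + 1) ^ (-(1 + α)) * 1 := mul_le_mul_of_nonneg_left e7 (by positivity)
      _ = _ := mul_one _
  unfold Sr
  calc α ^ 2 * P * ∑ i ∈ Finset.range (min M p), wq α (p - i) * cf η M (p - i) ≤
        α ^ 2 * P * (M * (η * (((j : ℝ) + 1) * M) ^ (-(1 + α)))) :=
        mul_le_mul_of_nonneg_left e5 (by positivity)
    _ = α ^ 2 * P * η * (M * (((j : ℝ) + 1) * M) ^ (-(1 + α))) := by ring
    _ ≤ α ^ 2 * P * η * ((j : ℝ) + 1) ^ (-(1 + α)) :=
        mul_le_mul_of_nonneg_left e6 (by positivity)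

/-- bounds of the coefficients in the big box `j` -/
noncomputable def bj (r : ℝ) : ℕ → ℝ
  | 0 => 2
  | 1 => 1
  | (j + 2) => ((j : ℝ) + 1) ^ (-(1 + r))

lemma bj_nonneg (r : ℝ) (j : ℕ) : 0 ≤ bj r j := by
  rcases j with _ | _ | j
  · simp [bj]
  · simp [bj]
  · simp only [bj]
    positivity

lemma bj_le_two {r : ℝ} (hr : 0 ≤ r) (j : ℕ) : bj r j ≤ 2 := by
  rcases j with _ | _ | j
  · simp [bj]
  · simp [bj]
  · simp only [bj]
    have h1 : ((j : ℝ) + 1) ^ (-(1 + r)) ≤ 1 :=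
      Real.rpow_le_one_of_one_le_of_nonpos (by linarith [Nat.cast_nonneg (α := ℝ) j]) (by linarith)
    linarith

lemma Ar_le {α P η : ℝ} (hα : 0 < α) (hα2 : α ≤ 1 / 2) (hP : 0 ≤ P) (hP2 : 2 * α * P ≤ 1)
    (hη0 : 0 ≤ η) (hη1 : η ≤ 1) (M : ℕ) (hM : 1 ≤ M) (j p : ℕ) (hp : p ∈ TT M j) :
    Ar α P η M p ≤ bj α j := by
  unfold TT at hp
  rw [Finset.mem_Ico] at hp
  have h1 := Sr_le hα hα2 hP hη1 M p
  unfold Ar
  rcases j with _ | _ | j
  · rw [if_pos (by simpa using hp.2)]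
    simp only [bj]
    linarith
  · rw [if_neg (by have := hp.1; simp at this; omega)]
    simp only [bj]
    linarith
  · have hpM : (j + 2) * M ≤ p := by simpa using hp.1
    have h2 : ¬ p < M := by
      have : 1 * M ≤ (j + 2) * M := Nat.mul_le_mul_right _ (by omega)
      omega
    rw [if_neg h2, zero_add]
    refine (Sr_far hα hP hη0 M hM j p hpM).trans ?_
    simp only [bj]
    refine mul_le_of_le_one_left (by positivity) ?_
    have h3 : α ^ 2 * P ≤ 1 := by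
      have h4 : α ^ 2 * P = α * (α * P) := by ring
      have h5 : 0 ≤ α * P := by positivity
      rw [h4]
      nlinarith
    calc α ^ 2 * P * η ≤ α ^ 2 * P * 1 := mul_le_mul_of_nonneg_left hη1 (by positivity)
      _ ≤ 1 := by linarith

lemma bj_pow {α θ s : ℝ} (hθ1 : θ < 1) (hs : (1 + α) * θ = 1 + s) (j : ℕ) :
    bj α j ^ θ ≤ bj s j := by
  rcases j with _ | _ | j
  · simp only [bj]
    calc (2 : ℝ) ^ θ ≤ 2 ^ (1 : ℝ) := Real.rpow_le_rpow_of_exponent_le (by norm_num) hθ1.le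
      _ = 2 := Real.rpow_one _
  · simp only [bj]
    rw [Real.one_rpow]
  · simp only [bj]
    rw [← Real.rpow_mul (by positivity), show -(1 + α) * θ = -(1 + s) by linarith]

lemma sum_bj {s : ℝ} (hs : 0 < s) (J : ℕ) : ∑ j ∈ Finset.range J, bj s j ≤ 4 + 1 / s := by
  have h1 : ∑ j ∈ Finset.range J, bj s j ≤ ∑ j ∈ Finset.range (J + 2), bj s j :=
    Finset.sum_le_sum_of_subset_of_nonneg (Finset.range_subset_range.2 (by omega))
      fun j _ _ => bj_nonneg _ _
  refine h1.trans ?_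
  rw [Finset.sum_range_succ', Finset.sum_range_succ']
  have h2 : ∑ j ∈ Finset.range J, bj s (j + 1 + 1) ≤ 1 + 1 / s := by
    refine le_trans (le_of_eq ?_) (sumw hs J)
    exact Finset.sum_congr rfl fun j _ => rfl
  have h3 : bj s (0 + 1) = 1 := rfl
  have h4 : bj s 0 = 2 := rfl
  rw [h3, h4]
  linarith

theorem pf_CBT : T_CBT := by
  intro α t θ s η P M J hα hα2 ht hθ hθ1 hs hs0 hη0 hη1 hP hP2 hM
  have hM' : (1 : ℝ) ≤ M := by exact_mod_cast hM
  have hc : 0 ≤ α ^ 2 * P * t := by positivity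
  have key : ∀ j : ℕ, ENNReal.ofReal (α ^ 2 * P * t) *
      ∑ p ∈ TT M j, ab (ENNReal.ofReal (α ^ 2 * P * t)) (Kd α t η M) M p ≤
      ENNReal.ofReal (α ^ 2 * P * t * M * bj α j) := by
    intro j
    have e1 : ∑ p ∈ TT M j, ab (ENNReal.ofReal (α ^ 2 * P * t)) (Kd α t η M) M p =
        ENNReal.ofReal (∑ p ∈ TT M j, Ar α P η M p) := by
      rw [ENNReal.ofReal_sum_of_nonneg fun p _ => Ar_nonneg hP hη0 M p]
      exact Finset.sum_congr rfl fun p _ => ab_eq ht hP hη0 M p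
    rw [e1, ← ENNReal.ofReal_mul hc]
    refine ENNReal.ofReal_le_ofReal ?_
    rw [mul_assoc (α ^ 2 * P * t)]
    refine mul_le_mul_of_nonneg_left ?_ hc
    refine (Finset.sum_le_sum fun p hp => Ar_le hα hα2 hP hP2 hη0 hη1 M hM j p hp).trans ?_
    rw [Finset.sum_const, nsmul_eq_mul]
    have e2 : (TT M j).card = M := by
      unfold TT
      rw [Nat.card_Ico]
      have e3 : (j + 1) * M = j * M + M := by ring
      omega
    rw [e2]
  constructor
  · have e1 : ∀ j ∈ Finset.range J, (ENNReal.ofReal (α ^ 2 * P * t) *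
        ∑ p ∈ TT M j, ab (ENNReal.ofReal (α ^ 2 * P * t)) (Kd α t η M) M p) ^ θ ≤
        ENNReal.ofReal ((α ^ 2 * P * t * M) ^ θ * bj s j) := by
      intro j _
      refine (ENNReal.rpow_le_rpow (key j) hθ.le).trans ?_
      rw [ENNReal.ofReal_rpow_of_nonneg (mul_nonneg (by positivity) (bj_nonneg _ _)) hθ.le]
      refine ENNReal.ofReal_le_ofReal ?_
      rw [Real.mul_rpow (by positivity) (bj_nonneg _ _)]
      exact mul_le_mul_of_nonneg_left (bj_pow hθ1 hs j) (by positivity)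
    refine (Finset.sum_le_sum e1).trans ?_
    rw [← ENNReal.ofReal_sum_of_nonneg fun j _ => mul_nonneg (by positivity) (bj_nonneg _ _)]
    refine ENNReal.ofReal_le_ofReal ?_
    rw [← Finset.mul_sum]
    exact mul_le_mul_of_nonneg_left (sum_bj hs0 J) (by positivity)
  · intro j
    refine (key j).trans (ENNReal.ofReal_le_ofReal ?_)
    have e1 := bj_le_two hα.le j
    have e2 : 0 ≤ α ^ 2 * P * t * M := by positivity
    nlinarith

end Pool.Agent.H75.CE
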